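import Mathlib

namespace Pool.Agent.Results.MP_b1a016_al.Periodic

universe u

/-- The closure of the subgroup generated by all closed non-normal subgroups. -/
def tildeS (G : Type u) [Group G] [TopologicalSpace G] [IsTopologicalGroup G] : Subgroup G :=
  (sSup {L : Subgroup G | IsClosed (L : Set G) ∧ ¬ L.Normal}).topologicalClosure

theorem fin_key {Q : Type u} [Group Q] {p : ℕ} (hp : p.Prime) (hQ : IsPGroup p Q) (g h c : Q)
    (a b : ℤ) (k : ℕ) (ha : c = g ^ a) (hb : c = h ^ b) (hc : g * h = c * h * g)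
    (hk : ¬ ((p : ℤ) ^ k ∣ a)) : g ^ (p ^ k * p ^ k) = 1 := by
  have ha0 : a.natAbs ≠ 0 := by rintro h0; exact hk (by simp [Int.natAbs_eq_zero.1 h0])
  obtain ⟨j, u, hu, hju⟩ := Nat.exists_eq_pow_mul_and_not_dvd ha0 p hp.one_lt.ne'
  have hjk : j ≤ k := by
    by_contra hh
    apply hk
    rw [← Int.dvd_natAbs, hju]; push_cast
    exact Dvd.dvd.mul_right (pow_dvd_pow _ (by omega)) _
  have h1 : g ^ p ^ j ∈ Subgroup.zpowers ((g ^ p ^ j) ^ u) :=
    mem_zpowers_pow_iff.2 (hQ.orderOf_coprime ((Nat.Prime.coprime_iff_not_dvd hp).2 hu) _).symm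
  have h2 : (g ^ p ^ j) ^ u ∈ Subgroup.zpowers c := by
    rw [← pow_mul, ← hju, ha]
    rcases Int.natAbs_eq a with h | h
    · rw [← zpow_natCast, ← h]; exact Subgroup.mem_zpowers _
    · have : ((a.natAbs : ℕ) : ℤ) = -a := by omega
      rw [← zpow_natCast, this, zpow_neg]; exact inv_mem (Subgroup.mem_zpowers _)
  have h3 : g ^ p ^ k ∈ Subgroup.zpowers c := by
    have := (Subgroup.zpowers_le.2 h2) h1
    rw [← Nat.add_sub_cancel' hjk, pow_add, pow_mul]
    exact pow_mem this _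
  obtain ⟨m, hm⟩ := h3
  have hm' : c ^ m = g ^ p ^ k := hm
  have cg : Commute c g := by rw [ha]; exact (Commute.refl g).zpow_left a
  have ch : Commute c h := by rw [hb]; exact (Commute.refl h).zpow_left b
  have hn : ∀ n : ℕ, g ^ n * h = c ^ n * h * g ^ n := by
    intro n
    induction n with
    | zero => simp
    | succ n ih =>
      calc g ^ (n + 1) * h = g * (g ^ n * h) := by rw [pow_succ', mul_assoc]
        _ = (g * c ^ n) * h * g ^ n := by rw [ih]; simp [mul_assoc]
        _ = c ^ n * (g * h) * g ^ n := by rw [← (cg.pow_left n).eq]; simp [mul_assoc]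
        _ = c ^ (n + 1) * h * g ^ (n + 1) := by rw [hc, pow_succ c, pow_succ' g]; simp [mul_assoc]
  have h4 : c ^ p ^ k = 1 := by
    have h5 := hn (p ^ k)
    have h6 : g ^ p ^ k * h = h * g ^ p ^ k := by rw [← hm']; exact (ch.zpow_left m).eq
    rw [h6, mul_assoc] at h5
    exact (mul_eq_right.1 h5.symm)
  rw [pow_mul, ← hm', ← zpow_natCast, ← zpow_mul, mul_comm, zpow_mul, zpow_natCast, h4, one_zpow]

theorem result (p : ℕ) (hp : p.Prime) (G : Type u) [Group G] [TopologicalSpace G]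
    [IsTopologicalGroup G] [CompactSpace G] [T2Space G] [TotallyDisconnectedSpace G]
    (hP : ∀ N : OpenNormalSubgroup G, IsPGroup p (G ⧸ N.toSubgroup))
    (hC : tildeS G ≠ ⊤) (hna : ∃ a b : G, a * b ≠ b * a) : ∀ z : G, IsOfFinOrder z := by
  set S := tildeS G with hS
  have hScl : IsClosed (S : Set G) := Subgroup.isClosed_topologicalClosure _
  let C : G → Subgroup G := fun g => (Subgroup.zpowers g).topologicalClosure
  have hgC : ∀ g, g ∈ C g := fun g => Subgroup.le_topologicalClosure _ (Subgroup.mem_zpowers g)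
  have hCn : ∀ g, g ∉ S → (C g).Normal := by
    intro g hg
    by_contra hn
    exact hg (Subgroup.le_topologicalClosure _
      (le_sSup (s := {L : Subgroup G | IsClosed (L : Set G) ∧ ¬ L.Normal}) (a := C g)
        ⟨Subgroup.isClosed_topologicalClosure _, hn⟩ (hgC g)))
  have img : ∀ (g x : G) (N : OpenNormalSubgroup G), x ∈ C g →
      ∃ a : ℤ, QuotientGroup.mk' N.toSubgroup x = QuotientGroup.mk' N.toSubgroup g ^ a := by
    intro g x N hx
    have h1 : C g ≤ (Subgroup.zpowers (QuotientGroup.mk' N.toSubgroup g)).comap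
        (QuotientGroup.mk' N.toSubgroup) := by
      refine Subgroup.topologicalClosure_minimal _ (Subgroup.zpowers_le.2 (Subgroup.mem_zpowers _))
        (Subgroup.isClosed_of_isOpen _ (Subgroup.isOpen_mono (H₁ := N.toSubgroup) ?_ N.isOpen'))
      intro y hy
      have : QuotientGroup.mk' N.toSubgroup y = 1 := (QuotientGroup.eq_one_iff y).2 hy
      rw [Subgroup.mem_comap, this]; exact one_mem _
    obtain ⟨a, ha⟩ := h1 hx
    exact ⟨a, ha.symm⟩
  have sep : ∀ x : G, x ≠ 1 → ∃ N : OpenNormalSubgroup G, x ∉ N.toSubgroup := by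
    intro x hx
    obtain ⟨N, hN⟩ := ProfiniteGrp.exist_openNormalSubgroup_sub_open_nhds_of_one
      (isOpen_compl_singleton (x := x)) (by simpa using hx.symm)
    exact ⟨N, fun h => hN h rfl⟩
  have pw : ∀ (x : G) (N : OpenNormalSubgroup G), ∃ k, x ^ p ^ k ∈ N.toSubgroup := by
    intro x N
    obtain ⟨k, hk⟩ := hP N (QuotientGroup.mk' N.toSubgroup x)
    exact ⟨k, (QuotientGroup.eq_one_iff _).1 (by rw [← map_pow] at hk; exact hk)⟩
  have step1 : ∀ g h : G, g ∉ S → h ∉ S → ¬ IsOfFinOrder g → g * h = h * g := by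
    intro g h hg hh hfin
    by_contra hne
    set c := g * h * g⁻¹ * h⁻¹ with hc
    have hc1 : c ≠ 1 := fun h0 => hne (by
      rw [hc, mul_inv_eq_one, mul_inv_eq_iff_eq_mul] at h0; exact h0)
    have cg : c ∈ C g := by
      have := mul_mem (hgC g) ((hCn g hg).conj_mem _ (inv_mem (hgC g)) h)
      simpa [hc, mul_assoc] using this
    have ch : c ∈ C h := mul_mem ((hCn h hh).conj_mem _ (hgC h) g) (inv_mem (hgC h))
    obtain ⟨N0, hN0⟩ := sep c hc1
    obtain ⟨k, hk⟩ := pw g N0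
    apply hfin
    refine isOfFinOrder_iff_pow_eq_one.2 ⟨p ^ k * p ^ k,
      Nat.mul_pos (pow_pos hp.pos _) (pow_pos hp.pos _), ?_⟩
    by_contra hne2
    obtain ⟨N1, hN1⟩ := sep _ hne2
    set N := N0 ⊓ N1
    have hle0 : N.toSubgroup ≤ N0.toSubgroup := fun x hx => hx.1
    have hle1 : N.toSubgroup ≤ N1.toSubgroup := fun x hx => hx.2
    obtain ⟨a, ha⟩ := img g c N cg
    obtain ⟨b, hb⟩ := img h c N ch
    have := fin_key hp (hP N) _ _ _ a b k ha hb (by
      simp only [← map_mul]; congr 1; simp [hc]) (by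
      rintro ⟨m, rfl⟩
      apply hN0
      rw [← map_zpow] at ha
      have h2 : c⁻¹ * g ^ ((p : ℤ) ^ k * m) ∈ N0.toSubgroup := hle0 (QuotientGroup.eq.1 ha)
      have h3 : g ^ ((p : ℤ) ^ k * m) ∈ N0.toSubgroup := by
        rw [zpow_mul]; exact zpow_mem (by exact_mod_cast hk) _
      simpa using (mul_mem_cancel_right h3).1 h2)
    rw [← map_pow] at this
    exact hN1 (hle1 ((QuotientGroup.eq_one_iff _).1 this))
  have step2 : ∀ g t : G, g ∉ S → g * t ≠ t * g → IsOfFinOrder g := by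
    intro g t hg ht
    by_contra hfin
    by_cases h : t ∈ S
    · have := step1 g (t * g) hg (fun h' => hg ((mul_mem_cancel_left h).1 h')) hfin
      rw [← mul_assoc] at this
      exact ht (mul_right_cancel this)
    · exact ht (step1 g t hg h hfin)
  have step3 : ∃ g t : G, g ∉ S ∧ g * t ≠ t * g := by
    by_contra hn
    push Not at hn
    obtain ⟨x, hx⟩ : ∃ x, x ∉ S := by
      by_contra h; push Not at h; exact hC ((Subgroup.eq_top_iff' _).2 h)
    obtain ⟨a, b, hab⟩ := hna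
    by_cases h : a ∈ S
    · have h1 := hn (a * x) b (fun h' => hx ((mul_mem_cancel_left h).1 h'))
      rw [mul_assoc, hn x b hx, ← mul_assoc, ← mul_assoc] at h1
      exact hab (mul_right_cancel h1)
    · exact hab (hn a b h)
  obtain ⟨g, t, hg, ht⟩ := step3
  intro z
  have hU : IsOpen {n : G | g * n ∉ S ∧ g * n * t ≠ t * (g * n)} :=
    (hScl.isOpen_compl.preimage (by fun_prop : Continuous fun n : G => g * n)).inter
      (isOpen_ne_fun (by fun_prop) (by fun_prop))
  obtain ⟨N, hN⟩ := ProfiniteGrp.exist_openNormalSubgroup_sub_open_nhds_of_one hU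
    (by simpa using ⟨hg, ht⟩)
  obtain ⟨k, hk⟩ := pw z N
  obtain ⟨h1, h2⟩ := hN hk
  have := hCn g hg
  have h3 := (QuotientGroup.mk' (C g)).isOfFinOrder (step2 _ t h1 h2)
  have h4 : QuotientGroup.mk' (C g) g = 1 := (QuotientGroup.eq_one_iff _).2 (hgC g)
  rw [map_mul, h4, one_mul] at h3
  obtain ⟨m, hm, h5⟩ := isOfFinOrder_iff_pow_eq_one.1 h3
  obtain ⟨n, hn, h6⟩ := isOfFinOrder_iff_pow_eq_one.1 (step2 g t hg ht)
  rw [← map_pow] at h5
  have h7 : (z ^ p ^ k) ^ m ∈ C g := (QuotientGroup.eq_one_iff _).1 h5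
  have h8 : closure (Subgroup.zpowers g : Set G) ⊆ {x | x ^ n = 1} := by
    refine closure_minimal ?_ (isClosed_eq (by fun_prop) continuous_const)
    rintro _ ⟨a, rfl⟩
    show (g ^ a) ^ n = 1
    rw [← zpow_natCast, ← zpow_mul, mul_comm, zpow_mul, zpow_natCast, h6, one_zpow]
  have h9 : ((z ^ p ^ k) ^ m) ^ n = 1 := h8 h7
  rw [← pow_mul, ← pow_mul] at h9
  exact isOfFinOrder_iff_pow_eq_one.2 ⟨_, Nat.mul_pos (pow_pos hp.pos _) (Nat.mul_pos hm hn), h9⟩

end Pool.Agent.Results.MP_b1a016_al.Periodic
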